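import Pool.Agent.Q98.SPN.Stm

/-!
# Project GSP, package COVL: the levels of one tuple
-/

set_option autoImplicit false

open scoped Matrix.Norms.L2Operator Matrix
open Finset

namespace Pool.Agent.U261.GSP.COVL

open Pool.Agent.Q98.SPN

theorem t_COVL : S_DEC → S_TKN → S_COVL := by
  intro hDEC hTKN ι _ _ d m κ K N hd hm hκ hN hbig Y hY
  set M : ℝ := 2 * Real.exp 1 * κ * m with hM
  have hm' : (0 : ℝ) < m := by exact_mod_cast hm
  have hκ' : (0 : ℝ) < κ := by exact_mod_cast (by omega : 0 < κ)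
  have he : 0 < Real.exp 1 := Real.exp_pos 1
  have hMpos : 0 < M := by positivity
  have hspos : 0 < sc m κ := by
    unfold sc
    exact Real.sqrt_pos.2 (by positivity)
  have hs2 : sc m κ ^ 2 = 100 * Real.exp 1 * M := by
    unfold sc
    rw [Real.sq_sqrt (by positivity), hM]
    have : Real.exp 2 = Real.exp 1 * Real.exp 1 := by rw [← Real.exp_add]; norm_num
    rw [this]; ring
  have hle : ∀ i, tk κ (Y i) < (4 ^ K * sc m κ ^ 2) ^ κ := by
    intro i
    refine lt_of_le_of_lt ?_ hbig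
    refine le_trans ?_ hY
    have h1 : tk κ (Y i) ≤ (d i : ℝ) * tk κ (Y i) := by
      have h2 : (1 : ℝ) ≤ d i := by exact_mod_cast hd i
      have h3 := hTKN (d i) κ (Y i)
      nlinarith
    refine h1.trans ?_
    exact Finset.single_le_sum (f := fun i => (d i : ℝ) * tk κ (Y i))
      (fun j _ => mul_nonneg (Nat.cast_nonneg _) (hTKN (d j) κ (Y j))) (Finset.mem_univ i)
  choose r W V h1 h2 h3 using fun i => hDEC (d i) (Y i) (sc m κ) K κ hspos (by omega) (hle i)
  refine ⟨fun k i => r i k, fun k i => W i k, fun k i => V i k, h1, fun k i => h2 i k, ?_⟩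
  intro k hk
  unfold qq
  refine Nat.le_floor ?_
  push_cast
  set T : ℝ := ∑ i, (d i : ℝ) * (r i k : ℝ) with hT
  have hT0 : 0 ≤ T := Finset.sum_nonneg fun i _ => by positivity
  have h4 : T * (4 ^ k * sc m κ ^ 2) ^ κ ≤ 2 * (m * Real.exp κ) * M ^ κ := by
    calc T * (4 ^ k * sc m κ ^ 2) ^ κ = ∑ i, (d i : ℝ) * ((r i k : ℝ) * (4 ^ k * sc m κ ^ 2) ^ κ) := by
          rw [hT, Finset.sum_mul]
          exact Finset.sum_congr rfl fun i _ => by ring
      _ ≤ ∑ i, (d i : ℝ) * tk κ (Y i) := by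
          refine Finset.sum_le_sum fun i _ => ?_
          refine mul_le_mul_of_nonneg_left ?_ (Nat.cast_nonneg _)
          refine le_trans ?_ (h3 i)
          exact Finset.single_le_sum (f := fun k => (r i k : ℝ) * (4 ^ k * sc m κ ^ 2) ^ κ)
            (fun j _ => by positivity) hk
      _ ≤ 2 * N * M ^ κ := hY
      _ ≤ 2 * (m * Real.exp κ) * M ^ κ := by
          have : 0 < M ^ κ := by positivity
          nlinarith
  have h5 : (4 ^ k * sc m κ ^ 2) ^ κ = (4 ^ k * 100) ^ κ * (Real.exp κ * M ^ κ) := by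
    rw [hs2]
    have : Real.exp κ = Real.exp 1 ^ κ := by rw [← Real.exp_nat_mul, mul_one]
    rw [this, ← mul_pow, ← mul_pow]
    congr 1
    ring
  have h6 : T * (4 ^ k * 100) ^ κ ≤ 2 * m := by
    rw [h5] at h4
    have hp : 0 < Real.exp κ * M ^ κ := by positivity
    have : (T * (4 ^ k * 100) ^ κ) * (Real.exp κ * M ^ κ) ≤ (2 * m) * (Real.exp κ * M ^ κ) := by
      calc (T * (4 ^ k * 100) ^ κ) * (Real.exp κ * M ^ κ)
          = T * ((4 ^ k * 100) ^ κ * (Real.exp κ * M ^ κ)) := by ring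
        _ ≤ 2 * (m * Real.exp κ) * M ^ κ := h4
        _ = (2 * m) * (Real.exp κ * M ^ κ) := by ring
    exact le_of_mul_le_mul_right this hp
  have h7 : (16 : ℝ) ^ k * 100 ^ κ ≤ (4 ^ k * 100) ^ κ := by
    rw [mul_pow]
    refine mul_le_mul_of_nonneg_right ?_ (by positivity)
    calc (16 : ℝ) ^ k = (4 ^ k) ^ 2 := by rw [← pow_mul, mul_comm, pow_mul]; norm_num
      _ ≤ (4 ^ k) ^ κ := pow_le_pow_right₀ (one_le_pow₀ (by norm_num)) hκ
  rw [le_div_iff₀ (by positivity)]
  exact (mul_le_mul_of_nonneg_left h7 hT0).trans h6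

end Pool.Agent.U261.GSP.COVL
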